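import Mathlib
import Pool.Agent.U74.PolNeg

set_option autoImplicit false

/-!
# Under GCH the relation `(ℵ₂, ℵ₃) → ((ℵ₂, ℵ₂), (ℵ₁, ℵ₁))` is neither provable nor refutable

Over any model of GCH its failure can be forced, with GCH and all cardinals preserved. Over a model
of GCH with a huge cardinal, the relation can be forced together with GCH.
-/

namespace Pool.Agent.Results.MP_9ed2bb_lc.Independent

open Cardinal Pool.Agent.Helper669.Forcing Pool.Agent.Helper669.K Pool.Agent.Helper669.U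
  Pool.Agent.Helper669.V

/-- Assume GCH. (1) Some forcing notion forces that all cardinals are preserved, that GCH holds, and
that the relation `(ℵ₂, ℵ₃) → ((ℵ₂, ℵ₂), (ℵ₁, ℵ₁))` fails. (2) If `κ` is a huge cardinal with target
`m`, some forcing notion forces GCH, that `ω₁`, `κ` and all regular cardinals `μ ≥ m` (in particular
`m`) stay regular, that every cardinal below `κ` has cardinality at most `ℵ₁` and every cardinal
below `m` has cardinality at most `κ` (so `κ = ℵ₂` and `m = ℵ₃`), and that the relation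
`(ℵ₂, ℵ₃) → ((ℵ₂, ℵ₂), (ℵ₁, ℵ₁))` holds. -/
theorem result (hGCH : ∀ ν : Cardinal.{0}, ℵ₀ ≤ ν → 2 ^ ν = Order.succ ν) :
    (∃ (P : Type) (_ : Preorder P), Nonempty P ∧ ∀ p : P,
      p ∈ CardinalsPreserved.{0, 0} P ∧ p ∈ ForcesGCH P ∧
      p ∈ fnot (PolarizedRel P (ℵ_ 2 : Cardinal.{0}).ord.ToType (ℵ_ 3 : Cardinal.{0}).ord.ToType
        (ℵ_ 1 : Cardinal.{0}).ord.ToType)) ∧
    (∀ κ m : Cardinal.{0}, IsHuge κ m → ∃ (P : Type) (_ : Preorder P), Nonempty P ∧ ∀ p : P,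
      p ∈ ForcesGCH P ∧ p ∈ StaysRegular P ℵ₁ ∧ p ∈ StaysRegular P κ ∧ m.IsRegular ∧
      (∀ μ : Cardinal.{0}, μ.IsRegular → m ≤ μ → p ∈ StaysRegular P μ) ∧
      p ∈ CollapsedTo P ℵ₁ κ ∧ p ∈ CollapsedTo P κ m ∧
      p ∈ PolarizedRel P κ.ord.ToType m.ord.ToType (ℵ_ 1 : Cardinal.{0}).ord.ToType) := by
  have h1 : Order.succ (ℵ_ 1 : Cardinal.{0}) = ℵ_ 2 := by
    rw [succ_aleph]; norm_num
  have h2 : Order.succ (ℵ_ 2 : Cardinal.{0}) = ℵ_ 3 := by
    rw [succ_aleph]; norm_num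
  refine ⟨Pool.Agent.U74.PolNeg.forced hGCH (mu := ℵ_ 1) (aleph0_le_aleph 1) ?_ ?_ ?_, ?_⟩
  · rw [mk_ord_toType, h1]
  · rw [mk_ord_toType, h1, h2]
  · rw [mk_ord_toType]
  · intro κ m h
    obtain ⟨P, i, h1, h2⟩ := huge_iteration_gch h hGCH
    refine ⟨P, i, h1, fun p => ?_⟩
    obtain ⟨a, b, c, d, e, f, g, l⟩ := h2 p
    exact ⟨f, a, b, c.1, c.2, d, e, l⟩

end Pool.Agent.Results.MP_9ed2bb_lc.Independent
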